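import Pool.Agent.H8.JS.Targets

/-!
# Complements
-/

set_option autoImplicit false

namespace Pool.Agent.H89.JS

open Pool.Agent.H69.Sp Pool.Agent.H69.Mt Pool.Agent.H16.TO Pool.Agent.H8.PL Pool.Agent.H8.JS

theorem pf_jc (hNU : J_NU) (hJS : J_JS) : J_JC := by
  intro S
  have h : posCompl S = num '' (lang S)ᶜ := by
    ext n
    constructor
    · rintro ⟨h0, hn⟩
      obtain ⟨x, hx⟩ := hNU.2.2.2.2 n h0
      refine ⟨x, ?_, hx⟩
      intro hxS
      apply hn
      rw [← hx]
      exact hxS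
    · rintro ⟨x, hx, rfl⟩
      refine ⟨?_, ?_⟩
      · exact lt_of_lt_of_le (by positivity) (hNU.2.2.1 x).1
      · intro hxS
        exact hx hxS
  rw [h]
  exact hJS.1 _

end Pool.Agent.H89.JS
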